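import Pool.Agent.W749.JI.Stm

/-!
# JI-CONDI: the condition on `y`
-/

set_option autoImplicit false

namespace Pool.Agent.W806.JICondI

open MvPolynomial
open Pool.Agent.W428.MOT Pool.Agent.W749.JI

theorem ordI_le {n k r : ℕ} (π : Fin k → Fin r) (m : Fin k → Fin n → ℕ) (u : Fin n → ℕ)
    (j : Fin k) : ordI π m u (π j) ≤ ∑ v, u v * m j v := by
  unfold ordI
  exact ciInf_le (f := fun j' : {j' : Fin k // π j' = π j} => ∑ v, u v * m j'.1 v)
    (OrderBot.bddBelow _) ⟨j, rfl⟩

theorem prod_shift {F : Type} [Field F] {n : ℕ} (u b : Fin n → ℕ) (y : Fin n → PowerSeries F) :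
    ∏ i, (PowerSeries.X ^ u i * y i) ^ b i = PowerSeries.X ^ (∑ i, u i * b i) * ∏ i, y i ^ b i := by
  simp only [mul_pow, ← pow_mul]
  rw [Finset.prod_mul_distrib, Finset.prod_pow_eq_pow_sum]

theorem aeval_fam {K : Type} [Field K] {n k r : ℕ} (π : Fin k → Fin r) (m : Fin k → Fin n → ℕ)
    (c : Fin k → K) (u : Fin n → ℕ) (y : Fin n → PowerSeries (AlgebraicClosure K)) (i : Fin r) :
    aeval (fun v => PowerSeries.X ^ u v * y v) (fam π m c i) =
      PowerSeries.X ^ ordI π m u i * gser m (cI π (cb c) i) (delI π m u) y := by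
  unfold fam gser
  rw [map_sum, Finset.mul_sum, Finset.sum_filter]
  refine Finset.sum_congr rfl fun j _ => ?_
  unfold cI
  by_cases h : π j = i
  · rw [if_pos h, if_pos h]
    simp only [map_mul, map_prod, map_pow, aeval_X, algHom_C]
    rw [prod_shift]
    have h1 : ∑ v, u v * m j v = ordI π m u i + delI π m u j := by
      unfold delI
      rw [← h, Nat.add_sub_cancel' (ordI_le π m u j)]
    have h3 : algebraMap K (PowerSeries (AlgebraicClosure K)) (c j) = PowerSeries.C (cb c j) :=
      PowerSeries.algebraMap_apply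
    rw [h1, pow_add, h3]
    ring
  · rw [if_neg h, if_neg h, map_zero]
    ring

theorem main : Pool.Agent.W749.JI.S_CondI := by
  intro K _ n k r π m c u N L y
  constructor
  · intro h i q hq
    have h1 := h i (ordI π m u i + q) hq
    rw [aeval_fam, PowerSeries.coeff_X_pow_mul', if_pos (Nat.le_add_right _ _),
      Nat.add_sub_cancel_left] at h1
    exact h1
  · intro h i j hj
    rw [aeval_fam, PowerSeries.coeff_X_pow_mul']
    split_ifs with h1
    · exact h i _ (by omega)
    · rfl

end Pool.Agent.W806.JICondI
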