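import Pool.Agent.W375.MT.Jet
import Pool.Agent.W749.JI.Stm

/-!
# JI-JETI: order equal to `N` and order at least `N`
-/

set_option autoImplicit false

namespace Pool.Agent.W806.JIJetI

open MvPolynomial
open Pool.Agent.W428.MOT Pool.Agent.W375.MT Pool.Agent.W749.JI

variable {K : Type} [Field K] {n r : ℕ}

/-- the coordinates of the jets of level `L` above `N` -/
def F2 (n N L : ℕ) : Finset (Fin n × Fin (L + 1)) :=
  Finset.univ.filter fun p => N < (p.2 : ℕ)

theorem card_F2 (n N L : ℕ) : (F2 n N L).card = n * (L - N) := by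
  have h : F2 n N L = (Finset.univ : Finset (Fin n)) ×ˢ
      (Finset.univ.filter fun j : Fin (L + 1) => N < (j : ℕ)) := by
    ext p
    simp [F2]
  rw [h, Finset.card_product, Finset.card_univ, Fintype.card_fin]
  congr 1
  have h2 : (Finset.univ.filter fun j : Fin (L + 1) => N < (j : ℕ)).card =
      (Finset.Ioo N (L + 1)).card := by
    rw [← Finset.card_map Fin.valEmbedding]
    congr 1
    ext a
    simp only [Finset.mem_map, Finset.mem_filter, Finset.mem_univ, true_and,
      Fin.valEmbedding_apply, Finset.mem_Ioo]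
    constructor
    · rintro ⟨b, hb, rfl⟩
      exact ⟨hb, b.2⟩
    · rintro ⟨h1, h2⟩
      exact ⟨⟨a, h2⟩, h1, rfl⟩
  rw [h2, Nat.card_Ioo]
  omega

/-- the jets of level `L` with origin `0` on which the ideal has order at least `q` -/
def GG (f : Fin r → MvPolynomial (Fin n) K) (L q : ℕ) : Set (Pt K (Fin n × Fin (L + 1))) :=
  {z | (∀ v, z (v, 0) = 0) ∧ ∀ i, ∀ j < q, PowerSeries.coeff j (aeval (arc z) (f i)) = 0}

theorem constr_GG (f : Fin r → MvPolynomial (Fin n) K) (L q : ℕ) : Constr (GG f L q) :=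
  Constr.and (Constr.all fun _ => Constr.eqz (IsPF.coord _))
    (Constr.all fun i => Constr.allLt _ fun j _ =>
      Constr.eqz (IsPA.aeval (fun i z => arc z i) (fun i => isPA_arc i) (f i) j))

theorem constr_ex (f : Fin r → MvPolynomial (Fin n) K) (L N : ℕ) :
    Constr {z : Pt K (Fin n × Fin (L + 1)) |
      ∃ i, PowerSeries.coeff N (aeval (arc z) (f i)) ≠ 0} :=
  Constr.ex fun i => (Constr.eqz (IsPA.aeval (fun i z => arc z i) (fun i => isPA_arc i)
    (f i) N)).not

/-- restriction -/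
def rs2 (N L : ℕ) (h : N ≤ L) (z : Pt K (Fin n × Fin (L + 1))) : Pt K (Fin n × Fin (N + 1)) :=
  fun p => z (p.1, ⟨p.2, by have := p.2.2; omega⟩)

/-- extension by zero -/
noncomputable def ex2 (N L : ℕ) (z : Pt K (Fin n × Fin (N + 1))) :
    Pt K (Fin n × Fin (L + 1)) :=
  fun p => if h : (p.2 : ℕ) < N + 1 then z (p.1, ⟨p.2, h⟩) else 0

theorem GG_free (f : Fin r → MvPolynomial (Fin n) K) (N L q : ℕ) (hL : N ≤ L) (hq : q ≤ N + 1)
    (z w : Pt K (Fin n × Fin (L + 1))) (h : ∀ p, p ∉ F2 n N L → w p = z p)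
    (hz : z ∈ GG f L q) : w ∈ GG f L q := by
  obtain ⟨h1, h2⟩ := hz
  refine ⟨fun i => ?_, fun i j hj => ?_⟩
  · rw [h (i, 0) (by simp [F2]), h1]
  · rw [coeff_aeval_congr (f i) N (arc w) (arc z) ?_ j (by omega)]
    · exact h2 i j hj
    · intro i k hk
      rw [coeff_arc _ _ _ (by omega), coeff_arc _ _ _ (by omega)]
      exact h _ (by simp only [F2, Finset.mem_filter, Finset.mem_univ, true_and]; omega)

theorem GG_eq {R : Type} [CommRing R] (M : Meas K R) (f : Fin r → MvPolynomial (Fin n) K)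
    (N L q : ℕ) (hL : N ≤ L) (hq : q ≤ N + 1) :
    M.χ _ (GG f L q ∩ {z | ∀ p ∈ F2 n N L, z p = 0}) = M.χ _ (GG f N q) := by
  refine M.iso _ _ ((constr_GG f L q).inter (Constr.ballFinset _ fun p _ =>
    Constr.eqz (IsPF.coord _))) (constr_GG f N q) (rs2 N L hL) (ex2 N L)
    (regularOn_poly (fun p => IsPF.coord _) _) (regularOn_poly (fun p => ?_) _) ?_ ?_ ?_ ?_
  · unfold ex2
    by_cases h : (p.2 : ℕ) < N + 1
    · simp only [dif_pos h]
      exact IsPF.coord _
    · simp only [dif_neg h]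
      exact IsPF.zero
  · rintro z ⟨⟨h1, h2⟩, h3⟩
    refine ⟨fun i => ?_, fun i j hj => ?_⟩
    · rw [← h1 i]
      rfl
    · rw [coeff_aeval_congr (f i) N (arc (rs2 N L hL z)) (arc z) ?_ j (by omega)]
      · exact h2 i j hj
      · intro i k hk
        rw [coeff_arc _ _ _ (by omega), coeff_arc _ _ _ (by omega)]
        rfl
  · rintro z ⟨h1, h2⟩
    refine ⟨⟨fun i => ?_, fun i j hj => ?_⟩, ?_⟩
    · rw [← h1 i]
      rfl
    · rw [coeff_aeval_congr (f i) N (arc (ex2 N L z)) (arc z) ?_ j (by omega)]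
      · exact h2 i j hj
      · intro i k hk
        rw [coeff_arc _ _ _ (by omega), coeff_arc _ _ _ (by omega)]
        simp only [ex2]
        rw [dif_pos (by omega)]
    · intro p hp
      simp only [F2, Finset.mem_filter, Finset.mem_univ, true_and] at hp
      simp only [ex2]
      rw [dif_neg (by omega)]
  · rintro z ⟨-, h3⟩
    funext p
    simp only [ex2, rs2]
    split_ifs with h
    · rfl
    · exact (h3 p (by simp only [F2, Finset.mem_filter, Finset.mem_univ, true_and]; omega)).symm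
  · rintro z -
    funext p
    simp only [ex2, rs2]
    rw [dif_pos p.2.2]

theorem GG_card (h1 : S_Free) {R : Type} [CommRing R] (M : Meas K R)
    (f : Fin r → MvPolynomial (Fin n) K) (N L q : ℕ) (hL : N ≤ L) (hq : q ≤ N + 1) :
    M.χ _ (GG f L q) = M.χ _ (GG f N q) * M.L ^ (n * (L - N)) := by
  classical
  have e1 := h1 M (GG f L q) ∅ (F2 n N L) (fun _ => 0) (Finset.disjoint_empty_left _)
    (constr_GG f L q) (fun z w h hz => GG_free f N L q hL hq z w (fun p hp => h p (by simp) hp) hz)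
  simp only [Finset.notMem_empty, false_implies, implies_true, Set.ofPred_true, Set.inter_univ,
    Finset.empty_union, map_zero, Finset.card_empty, pow_zero, mul_one] at e1
  rw [card_F2, GG_eq M f N L q hL hq] at e1
  exact e1

theorem jet_add {R : Type} [CommRing R] (M : Meas K R) (f : Fin r → MvPolynomial (Fin n) K)
    (N : ℕ) : M.χ _ (GG f N N) = M.χ _ (JetI f N) + M.χ _ (GG f N (N + 1)) := by
  have h : GG f N N = JetI f N ∪ GG f N (N + 1) := by
    ext z
    constructor
    · rintro ⟨h1, h2⟩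
      by_cases h3 : ∃ i, PowerSeries.coeff N (aeval (arc z) (f i)) ≠ 0
      · exact Or.inl ⟨h1, h2, h3⟩
      · right
        push Not at h3
        refine ⟨h1, fun i j hj => ?_⟩
        rcases Nat.lt_succ_iff_lt_or_eq.1 hj with h4 | h4
        · exact h2 i j h4
        · rw [h4]
          exact h3 i
    · rintro (⟨h1, h2, _⟩ | ⟨h1, h2⟩)
      · exact ⟨h1, h2⟩
      · exact ⟨h1, fun i j hj => h2 i j (by omega)⟩
  rw [h]
  refine M.add _ _ ?_ (constr_GG f N (N + 1)) ?_
  · exact Constr.and (Constr.all fun _ => Constr.eqz (IsPF.coord _)) (Constr.and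
      (Constr.all fun i => Constr.allLt _ fun j _ =>
        Constr.eqz (IsPA.aeval (fun i z => arc z i) (fun i => isPA_arc i) (f i) j))
      (constr_ex f N N))
  · rw [Set.disjoint_left]
    rintro z ⟨_, _, i, h3⟩ ⟨_, h4⟩
    exact h3 (h4 i N (Nat.lt_succ_self N))

theorem main (h : Pool.Agent.W428.MOT.S_Free) : Pool.Agent.W749.JI.S_JetI := by
  intro K _ R _ M n r f N hN
  have e1 : M.χ _ (GE f N) = M.χ _ (GG f N N) * M.L ^ (n * (2 * N + 1 - N)) :=
    GG_card h M f N (2 * N + 1) N (by omega) (by omega)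
  have e2 : M.χ _ (GE f (N + 1)) =
      M.χ _ (GG f N (N + 1)) * M.L ^ (n * (2 * (N + 1) + 1 - N)) :=
    GG_card h M f N (2 * (N + 1) + 1) (N + 1) (by omega) le_rfl
  have e3 : 2 * N + 1 - N = N + 1 := by omega
  have e4 : 2 * (N + 1) + 1 - N = N + 3 := by omega
  rw [e1, e2, e3, e4, jet_add]
  ring

end Pool.Agent.W806.JIJetI
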