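import Pool.Agent.W375.MT.Jet
import Pool.Agent.W749.JI.Stm

/-!
# JI-PART: partition of the jets by the orders of the coordinates
-/

set_option autoImplicit false

namespace Pool.Agent.W806.JIPart

open MvPolynomial
open Pool.Agent.W428.MOT Pool.Agent.W375.MT Pool.Agent.W749.JI

variable {K : Type} [Field K] {n r : ℕ}

/-- the ideal has order at least `N` on the arc -/
def Cnd (f : Fin r → MvPolynomial (Fin n) K) (N : ℕ)
    (γ : Fin n → PowerSeries (AlgebraicClosure K)) : Prop :=
  ∀ i, ∀ j < N, PowerSeries.coeff j (aeval γ (f i)) = 0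

theorem constr_Cnd {ι : Type} (γ : Fin n → Pt K ι → PowerSeries (AlgebraicClosure K))
    (hγ : ∀ i, IsPA (γ i)) (f : Fin r → MvPolynomial (Fin n) K) (N : ℕ) :
    Constr {z : Pt K ι | Cnd f N (fun v => γ v z)} :=
  Constr.all fun i => Constr.allLt _ fun j _ => Constr.eqz (IsPA.aeval γ hγ (f i) j)

/-- the strata -/
def st (f : Fin r → MvPolynomial (Fin n) K) (N : ℕ) (u : Fin n → ℕ) :
    Set (Pt K (Fin n × Fin (2 * N + 1 + 1))) :=
  {z | (∀ v, z (v, 0) = 0) ∧
    (∀ i, (∀ j < u i, PowerSeries.coeff j (arc z i) = 0) ∧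
      (u i ≤ N → PowerSeries.coeff (u i) (arc z i) ≠ 0)) ∧ Cnd f N (arc z)}

theorem constr_st (f : Fin r → MvPolynomial (Fin n) K) (N : ℕ) (u : Fin n → ℕ) :
    Constr (st f N u) := by
  unfold st
  refine Constr.and (Constr.all fun i => Constr.eqz (IsPF.coord _))
    (Constr.and (Constr.all fun i => Constr.and (Constr.allLt _ fun j _ => ?_)
      (Constr.imp' fun _ => ?_)) (constr_Cnd (fun i z => arc z i) (fun i => isPA_arc i) f N))
  · exact Constr.eqz (isPA_arc i j)
  · exact (Constr.eqz (isPA_arc i (u i))).not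

theorem shift {R : Type} [CommRing R] (M : Meas K R) (f : Fin r → MvPolynomial (Fin n) K)
    (N : ℕ) (u : Fin n → ℕ) (hA : Adm Finset.univ u) (hu : ∀ i, u i ≤ N + 1) :
    M.χ _ (st f N u) = M.χ _ (Y0 (fun _ => (0 : K)) N u ∩
      {y | ∀ i, ∀ j < N, PowerSeries.coeff j
        (aeval (fun v => PowerSeries.X ^ u v * arc y v) (f i)) = 0}) := by
  have hu1 : ∀ i, u i ≠ 0 := fun i => (hA i).2 (Finset.mem_univ i)
  refine M.iso _ _ (constr_st f N u) ((constr_Y0 (fun _ => (0 : K)) N u).inter
    (constr_Cnd (fun i z => PowerSeries.X ^ u i * arc z i)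
      (fun i => IsPA_X_pow_mul (isPA_arc i) _) f N))
    (sh u) (sh' u) (regularOn_poly (fun p => isPF_sh u p) _)
    (regularOn_poly (fun p => isPF_sh' u p) _) ?_ ?_ ?_ ?_
  · rintro z ⟨h1, h2, h3⟩
    refine ⟨⟨?_, ?_, ?_⟩, ?_⟩
    · intro i j hj
      simp only [sh]
      rw [dif_neg (by have := hu i; omega)]
    · intro i hi
      have := (h2 i).2 hi
      rw [coeff_arc _ _ _ (by omega)] at this
      simp only [sh]
      rw [dif_pos (by simp only [Fin.val_zero]; omega)]
      simpa using this
    · intro i hi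
      exact absurd rfl hi
    · have h4 : (fun i => PowerSeries.X ^ u i * arc (sh u z) i) = arc z := by
        funext i
        exact (arc_sh u z i (h2 i).1).symm
      intro i j hj
      rw [h4]
      exact h3 i j hj
  · rintro y ⟨⟨h1, h2, h3⟩, h4⟩
    have h5 : ∀ i, arc (sh' u y) i = PowerSeries.X ^ u i * arc y i := fun i =>
      arc_sh' u y i (h1 i) (by have := hu i; omega)
    refine ⟨?_, ?_, ?_⟩
    · intro i
      simp only [sh']
      rw [if_neg (by have := hu1 i; simp only [Fin.val_zero]; omega)]
    · intro i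
      rw [h5 i]
      constructor
      · intro j hj
        rw [PowerSeries.coeff_X_pow_mul', if_neg (by omega)]
      · intro hi
        rw [PowerSeries.coeff_X_pow_mul', if_pos le_rfl, Nat.sub_self,
          coeff_arc _ _ _ (by omega)]
        exact h2 i hi
    · have h6 : arc (sh' u y) = fun i => PowerSeries.X ^ u i * arc y i := funext h5
      rw [h6]
      exact h4
  · rintro z ⟨h1, h2, h3⟩
    funext p
    obtain ⟨i, j⟩ := p
    simp only [sh', sh]
    split_ifs with h6 h7
    · congr 2
      apply Fin.ext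
      simp only
      omega
    · exfalso
      have := j.2
      omega
    · have := (h2 i).1 (j : ℕ) (by omega)
      rw [coeff_arc _ _ _ j.2] at this
      exact this.symm
  · rintro y ⟨⟨h1, h2, h3⟩, h4⟩
    funext p
    obtain ⟨i, j⟩ := p
    simp only [sh', sh]
    split_ifs with h6 h7
    · congr 2
      apply Fin.ext
      simp only
      omega
    · omega
    · rw [h1 i j (by have := hu i; omega)]

theorem union_st (f : Fin r → MvPolynomial (Fin n) K) (N : ℕ) :
    GE f N = ⋃ u ∈ (Fintype.piFinset fun _ : Fin n =>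
      Finset.range (N + 2)).filter (Adm Finset.univ), st f N u := by
  classical
  ext z
  simp only [Set.mem_iUnion, Finset.mem_filter, Fintype.mem_piFinset, Finset.mem_range,
    exists_prop]
  constructor
  · intro hz
    obtain ⟨h1, h2⟩ := hz
    have hex : ∀ i, ∃ j, j = N + 1 ∨ PowerSeries.coeff j (arc z i) ≠ 0 := fun i =>
      ⟨N + 1, Or.inl rfl⟩
    have hle : ∀ i, Nat.find (hex i) ≤ N + 1 := fun i => Nat.find_min' (hex i) (Or.inl rfl)
    refine ⟨fun i => Nat.find (hex i), ⟨fun i => Nat.lt_succ_of_le (hle i), fun i => ?_⟩,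
      h1, ?_, h2⟩
    · simp only [Finset.mem_univ, iff_true]
      rw [ne_eq, Nat.find_eq_zero]
      have h3 : PowerSeries.coeff 0 (arc z i) = 0 := by
        rw [coeff_arc _ _ _ (by omega)]
        exact h1 i
      rw [h3]
      rintro (h4 | h4)
      · omega
      · exact h4 rfl
    · intro i
      constructor
      · intro j hj
        have := Nat.find_min (hex i) hj
        push Not at this
        exact this.2
      · intro hi
        rcases Nat.find_spec (hex i) with h | h
        · have hi' : Nat.find (hex i) ≤ N := hi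
          omega
        · exact h
  · rintro ⟨u, -, h1, -, h3⟩
    exact ⟨h1, h3⟩

theorem main : Pool.Agent.W749.JI.S_Part := by
  intro K _ R _ M n r f N hN
  rw [union_st f N, chi_biUnion M _ _ (fun u _ => constr_st f N u)]
  · refine Finset.sum_congr rfl fun u hu => ?_
    simp only [Finset.mem_filter, Fintype.mem_piFinset, Finset.mem_range] at hu
    exact shift M f N u hu.2 (fun i => by have := hu.1 i; omega)
  · intro u hu v hv huv
    rw [Set.disjoint_left]
    rintro z ⟨-, h2, -⟩ ⟨-, h3, -⟩
    apply huv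
    simp only [Finset.mem_filter, Fintype.mem_piFinset, Finset.mem_range] at hu hv
    funext i
    rcases lt_trichotomy (u i) (v i) with h | h | h
    · exact absurd ((h3 i).1 _ h) ((h2 i).2 (by have := hv.1 i; omega))
    · exact h
    · exact absurd ((h2 i).1 _ h) ((h3 i).2 (by have := hu.1 i; omega))

end Pool.Agent.W806.JIPart
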