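import Pool.Agent.W217.BE.Stm

set_option autoImplicit false

namespace Pool.Agent.W806.BEMINRES

open Pool.Agent.W217.BE

section
variable (B : Type) [CommRing B] [IsLocalRing B]

/-- minimal covers -/
theorem cover (N : Type) [AddCommGroup N] [Module B N] [Module.Finite B N] :
    ∃ (n : ℕ) (e : (Fin n → B) →ₗ[B] N), Function.Surjective e ∧
      ∀ v ∈ LinearMap.ker e, ∀ j, v j ∈ IsLocalRing.maximalIdeal B := by
  classical
  have hex : ∃ n : ℕ, ∃ e : (Fin n → B) →ₗ[B] N, Function.Surjective e :=
    Module.Finite.exists_fin' B N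
  obtain ⟨e, he⟩ := Nat.find_spec hex
  have hmin : ∀ m, m < Nat.find hex → ¬ ∃ e : (Fin m → B) →ₗ[B] N, Function.Surjective e :=
    fun m hm => Nat.find_min hex hm
  revert e hmin
  generalize Nat.find hex = n
  intro e he hmin
  refine ⟨n, e, he, fun v hv j => ?_⟩
  by_contra hj
  rw [IsLocalRing.mem_maximalIdeal, mem_nonunits_iff, not_not] at hj
  obtain ⟨w, hw⟩ := hj.exists_left_inv
  cases n with
  | zero => exact j.elim0
  | succ m =>
    apply hmin m (Nat.lt_succ_self m)
    refine ⟨Fintype.linearCombination B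
      (fun k : Fin m => e (fun i => if j.succAbove k = i then 1 else 0)), ?_⟩
    intro x
    obtain ⟨y, rfl⟩ := he x
    refine ⟨fun k => (y - (y j * w) • v) (j.succAbove k), ?_⟩
    rw [Fintype.linearCombination_apply]
    have h1 : e (y - (y j * w) • v) = e y := by
      rw [map_sub, map_smul, LinearMap.mem_ker.1 hv, smul_zero, sub_zero]
    have h2 : (y - (y j * w) • v) j = 0 := by
      rw [Pi.sub_apply, Pi.smul_apply, smul_eq_mul, mul_assoc, hw, mul_one, sub_self]
    rw [← h1, LinearMap.pi_apply_eq_sum_univ e (y - (y j * w) • v), Fin.sum_univ_succAbove _ j, h2,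
      zero_smul, zero_add]

/-- submodules of free modules with entries in the maximal ideal -/
structure St where
  r : ℕ
  K : Submodule B (Fin r → B)
  h : ∀ v ∈ K, ∀ j, v j ∈ IsLocalRing.maximalIdeal B

variable [IsNoetherianRing B]

/-- rank of the cover -/
noncomputable def nx (s : St B) : ℕ := (cover B s.K).choose

/-- the cover -/
noncomputable def ex (s : St B) : (Fin (nx B s) → B) →ₗ[B] s.K := (cover B s.K).choose_spec.choose

theorem ex_surj (s : St B) : Function.Surjective (ex B s) :=
  (cover B s.K).choose_spec.choose_spec.1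

/-- next state -/
noncomputable def next (s : St B) : St B :=
  ⟨nx B s, LinearMap.ker (ex B s), (cover B s.K).choose_spec.choose_spec.2⟩

/-- the sequence of states -/
noncomputable def sq (s : St B) : ℕ → St B
  | 0 => s
  | n + 1 => next B (sq s n)

theorem range_aux {M M' : Type} [AddCommGroup M] [Module B M] [AddCommGroup M'] [Module B M']
    (K : Submodule B M) (e : M' →ₗ[B] K) (he : Function.Surjective e) :
    LinearMap.range (K.subtype ∘ₗ e) = K := by
  rw [LinearMap.range_comp, LinearMap.range_eq_top.2 he, Submodule.map_top,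
    Submodule.range_subtype]

theorem ker_aux {M M' : Type} [AddCommGroup M] [Module B M] [AddCommGroup M'] [Module B M']
    (K : Submodule B M) (e : M' →ₗ[B] K) :
    LinearMap.ker (K.subtype ∘ₗ e) = LinearMap.ker e := by
  rw [LinearMap.ker_comp, Submodule.ker_subtype]
  rfl

/-- the differential -/
noncomputable def dd (s : St B) (i : ℕ) :
    (Fin (sq B s (i + 1)).r → B) →ₗ[B] (Fin (sq B s i).r → B) :=
  (sq B s i).K.subtype ∘ₗ (ex B (sq B s i))

theorem range_dd (s : St B) (i : ℕ) : LinearMap.range (dd B s i) = (sq B s i).K :=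
  range_aux B _ _ (ex_surj B (sq B s i))

theorem ker_dd (s : St B) (i : ℕ) : LinearMap.ker (dd B s i) = (sq B s (i + 1)).K :=
  ker_aux B _ _

end

theorem main : MINRES := by
  intro B _ _ _ N _ _ _
  obtain ⟨n, e, he, hk⟩ := cover B N
  let s : St B := ⟨n, LinearMap.ker e, hk⟩
  refine ⟨fun i => (sq B s i).r, dd B s, e, ⟨he, range_dd B s 0, fun i => ?_⟩, fun i x j => ?_⟩
  · rw [range_dd, ker_dd]
  · refine (sq B s i).h (dd B s i x) ?_ j
    have h : dd B s i x ∈ LinearMap.range (dd B s i) := ⟨x, rfl⟩
    rwa [range_dd] at h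

end Pool.Agent.W806.BEMINRES
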