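import Pool.Agent.W982.CP.Geo

/-!
# Project CP, part SOUND: soundness of the geometry (counting)
-/

namespace Pool.Agent.W806.CPS

open Pool.Agent.W982.CP

theorem len_blobPts (n t : ℕ) (b : Blob) : (blobPts n t b).length = 3 * t := by
  simp [blobPts, List.length_flatMap, List.range_succ]
  ring

theorem len_blobs (E : List (ℕ × ℕ)) : (blobs E).length = 4 * E.length := by
  simp [blobs, List.length_flatMap, mul_comm]

theorem len_pts (n t : ℕ) (E : List (ℕ × ℕ)) : (pts n t E).length = 12 * t * E.length := by
  simp only [pts, List.length_flatMap, len_blobPts]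
  simp only [List.map_const', List.sum_replicate, len_blobs, smul_eq_mul]
  ring

theorem nodup_blobs (E : List (ℕ × ℕ)) (h : E.Nodup) : (blobs E).Nodup := by
  unfold blobs
  rw [List.nodup_flatMap]
  constructor
  · intro x _
    refine List.Nodup.map ?_ List.nodup_range
    intro i j hij
    simpa using hij
  · refine h.imp ?_
    intro x x' hxx'
    simp only [Function.onFun, List.disjoint_left, List.mem_map]
    rintro b ⟨i, _, rfl⟩ ⟨j, _, hj⟩
    exact hxx' (by simpa using (congrArg Prod.fst hj).symm)

theorem mem_blobs {E : List (ℕ × ℕ)} {e : ℕ × ℕ} {τ : ℕ} (he : e ∈ E) (hτ : τ < 4) :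
    ((e, τ) : Blob) ∈ blobs E := by
  simp only [blobs, List.mem_flatMap, List.mem_map, List.mem_range]
  exact ⟨e, he, τ, hτ, rfl⟩

theorem rect_sub {E : List (ℕ × ℕ)} {q : Quad} (h : Closed E q) : ∀ b ∈ rect q, b ∈ blobs E := by
  intro b hb
  obtain ⟨h1, h2, h3, h4⟩ := h
  simp only [rect, List.mem_cons, List.not_mem_nil, or_false] at hb
  rcases hb with rfl | rfl | rfl | rfl
  · exact mem_blobs h1 (by norm_num)
  · exact mem_blobs h2 (by norm_num)
  · exact mem_blobs h3 (by norm_num)
  · exact mem_blobs h4 (by norm_num)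

theorem rect_card (q : Quad) : (rect q).toFinset.card = 4 := by
  rw [List.toFinset_card_of_nodup]
  · rfl
  · simp [rect]

theorem filter_add {α : Type*} (p q : α → Bool) : ∀ l : List α, (∀ x ∈ l, ¬ (p x = true ∧ q x = true)) →
    (l.filter p).length + (l.filter q).length ≤ l.length
  | [], _ => by simp
  | x :: l, h => by
    have ih := filter_add p q l (fun y hy => h y (List.mem_cons_of_mem _ hy))
    have hx := h x List.mem_cons_self
    by_cases hp : p x = true
    · have hq : ¬ (q x = true) := fun hq => hx ⟨hp, hq⟩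
      simp only [List.filter_cons_of_pos hp, List.filter_cons_of_neg hq, List.length_cons]
      omega
    · by_cases hq : q x = true
      · simp only [List.filter_cons_of_neg hp, List.filter_cons_of_pos hq, List.length_cons]
        omega
      · simp only [List.filter_cons_of_neg hp, List.filter_cons_of_neg hq, List.length_cons]
        omega

theorem cls_add (n t : ℕ) (T T' : List (ℚ × ℚ)) (b : Blob) (m : ℕ) (h : List.Disjoint T T') :
    cls n t T b m + cls n t T' b m ≤ t := by
  unfold cls
  refine (filter_add _ _ (List.range t) ?_).trans (by simp)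
  rintro x _ ⟨h1, h2⟩
  exact h (of_decide_eq_true h1) (of_decide_eq_true h2)

open Classical in
theorem t_SOUND : S_PART → S_NOD → S_SOUND := by
  intro hPART hNOD n t E hE hEn ht y hy hconv
  set a := E.length with ha
  have ht6 : 6 ≤ t := by nlinarith
  have hnod : (pts n t E).Nodup := hNOD n t E hE hEn
  have hyn : y.flatten.Nodup := hy.nodup_iff.2 hnod
  rw [List.nodup_flatten] at hyn
  obtain ⟨hTn, hTd⟩ := hyn
  have hTp : ∀ T ∈ y, ∀ p ∈ T, p ∈ pts n t E := by
    intro T hT p hp
    exact hy.mem_iff.1 (List.mem_flatten.2 ⟨T, hT, hp⟩)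
  have hlen : (y.map List.length).sum = 12 * t * a := by
    rw [← List.length_flatten, hy.length_eq, len_pts]
  have key : ∀ T ∈ y, T.length ≤ 12 * t + 24 * a ∧
      (Full t a T → ∃ q : Quad, Closed E q ∧
        ∀ b ∈ blobs E, ∀ m < 3, t < 2 * cls n t T b m ↔ b ∈ rect q) := by
    intro T hT
    exact hPART n t E hE hEn ht6 T (hTn T hT) (hTp T hT) (hconv T hT)
  -- a ≤ K
  have haK : a ≤ y.length := by
    have h1 : (y.map List.length).sum ≤ y.length * (12 * t + 24 * a) := by
      have := List.sum_le_card_nsmul (y.map List.length) (12 * t + 24 * a) (by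
        intro x hx
        obtain ⟨T, hT, rfl⟩ := List.mem_map.1 hx
        exact (key T hT).1)
      simpa using this
    rw [hlen] at h1
    by_contra hlt
    push Not at hlt
    have h2 : y.length + 1 ≤ a := hlt
    nlinarith [Nat.zero_le y.length, Nat.zero_le a, mul_le_mul h2 (le_refl (12 * t + 24 * a)) (Nat.zero_le _) (Nat.zero_le _)]
  refine ⟨haK, ?_⟩
  -- number of full entries
  set F := y.filter (fun T => decide (Full t a T)) with hF
  have hFlen : F.length ≤ y.length := List.length_filter_le _ _
  have hsum : ∀ l : List (List (ℚ × ℚ)), (∀ T ∈ l, T.length ≤ 12 * t + 24 * a) →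
      2 * (l.map List.length).sum + (l.length - (l.filter (fun T => decide (Full t a T))).length) * t ≤
        l.length * (24 * t + 48 * a) := by
    intro l
    induction l with
    | nil => intro _; simp
    | cons T l ih =>
      intro h
      have ih' := ih (fun T' hT' => h T' (List.mem_cons_of_mem _ hT'))
      have hT := h T List.mem_cons_self
      have hle : (l.filter (fun T => decide (Full t a T))).length ≤ l.length := List.length_filter_le _ _
      by_cases hf : Full t a T
      · rw [List.filter_cons_of_pos (by simpa using hf)]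
        simp only [List.map_cons, List.sum_cons, List.length_cons]
        rw [Nat.add_sub_add_right]
        nlinarith
      · rw [List.filter_cons_of_neg (by simpa using hf)]
        simp only [List.map_cons, List.sum_cons, List.length_cons]
        have hf' : 2 * T.length ≤ 23 * t + 48 * a := by
          unfold Full at hf; omega
        rw [show l.length + 1 - (l.filter (fun T => decide (Full t a T))).length =
          (l.length - (l.filter (fun T => decide (Full t a T))).length) + 1 by omega]
        nlinarith
  have hs := hsum y (fun T hT => (key T hT).1)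
  rw [hlen, ← hF] at hs
  -- a - f ≤ 24 (K - a)
  have hfK : a - F.length ≤ 24 * (y.length - a) := by
    obtain ⟨d, hd⟩ := Nat.exists_eq_add_of_le haK
    obtain ⟨g, hg⟩ := Nat.exists_eq_add_of_le hFlen
    have e1 : y.length - a = d := by omega
    have e2 : y.length - F.length = g := by omega
    rw [e2] at hs
    rw [e1]
    by_cases h4 : y.length ≤ 4 * a
    · have h5 : g ≤ 24 * d := by
        by_contra hlt
        push Not at hlt
        have h6 : 24 * d + 1 ≤ g := hlt
        have h7 : (24 * d + 1) * t ≤ g * t := Nat.mul_le_mul_right _ h6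
        have h8 : a * y.length ≤ a * (4 * a) := Nat.mul_le_mul_left _ h4
        rw [hd] at hs h8
        nlinarith
      omega
    · omega
  choose! qf hqf1 hqf2 using fun T (hT : T ∈ y) => (key T hT).2
  have hFy : ∀ T ∈ F, T ∈ y ∧ Full t a T := by
    intro T hT
    rw [hF, List.mem_filter] at hT
    exact ⟨hT.1, by simpa using hT.2⟩
  have hFd : F.Pairwise List.Disjoint := hTd.sublist (List.filter_sublist)
  have hdis : ∀ T ∈ F, ∀ T' ∈ F, List.Disjoint T T' → ∀ b, b ∈ rect (qf T) → b ∉ rect (qf T') := by
    intro T hT T' hT' hd b hb hb'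
    obtain ⟨h1, h2⟩ := hFy T hT
    obtain ⟨h1', h2'⟩ := hFy T' hT'
    have hbE : b ∈ blobs E := rect_sub (hqf1 T h1 h2) b hb
    have c1 := (hqf2 T h1 h2 b hbE 0 (by norm_num)).2 hb
    have c2 := (hqf2 T' h1' h2' b hbE 0 (by norm_num)).2 hb'
    have := cls_add n t T T' b 0 hd
    omega
  have hPW : F.Pairwise (fun T T' => ∀ b, b ∈ rect (qf T) → b ∉ rect (qf T')) := by
    refine List.Pairwise.imp_of_mem ?_ hFd
    intro T T' hT hT' hd
    exact hdis T hT T' hT' hd
  have hPW2 : (F.map qf).Pairwise (fun q q' => ∀ b, b ∈ rect q → b ∉ rect q') := by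
    rw [List.pairwise_map]
    exact hPW
  have hmapnd : (F.map qf).Nodup := by
    refine hPW2.imp ?_
    intro q q' h hqq'
    subst hqq'
    exact h ((q.1, q.2.1), 3) (by simp [rect]) (by simp [rect])
  set R : Finset Quad := (F.map qf).toFinset with hR
  have hRmem : ∀ q, q ∈ R ↔ ∃ T ∈ F, qf T = q := by
    intro q
    rw [hR, List.mem_toFinset, List.mem_map]
  have hRcard : R.card = F.length := by
    rw [hR, List.toFinset_card_of_nodup hmapnd, List.length_map]
  have hRC : ∀ q ∈ R, Closed E q := by
    intro q hq
    obtain ⟨T, hT, rfl⟩ := (hRmem q).1 hq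
    exact hqf1 T (hFy T hT).1 (hFy T hT).2
  have hRd : ∀ q ∈ R, ∀ q' ∈ R, ∀ b, b ∈ rect q → b ∈ rect q' → q = q' := by
    haveI hsym : Std.Symm (fun q q' : Quad => ∀ b, b ∈ rect q → b ∈ rect q' → q = q') :=
      ⟨fun q q' h b hb hb' => (h b hb' hb).symm⟩
    have := List.Pairwise.forall_of_forall (R := fun q q' : Quad => ∀ b, b ∈ rect q → b ∈ rect q' → q = q')
      (l := F.map qf) (fun q _ b _ _ => rfl)
      (hPW2.imp (fun h b hb hb' => absurd hb' (h b hb)))
    intro q hq q' hq'
    exact this (List.mem_toFinset.1 hq) (List.mem_toFinset.1 hq')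
  refine ⟨R, hRC, hRd, ?_, ?_⟩
  · -- counting of the uncovered blobs
    set C : Finset Blob := R.biUnion (fun q => (rect q).toFinset) with hC
    have hCcard : C.card = 4 * F.length := by
      rw [hC, Finset.card_biUnion]
      · simp [rect_card, hRcard, mul_comm]
      · intro q hq q' hq' hne
        simp only [Function.onFun, Finset.disjoint_left]
        intro b hb hb'
        exact hne (hRd q hq q' hq' b (List.mem_toFinset.1 hb) (List.mem_toFinset.1 hb'))
    have hCsub : C ⊆ (blobs E).toFinset := by
      intro b hb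
      rw [hC, Finset.mem_biUnion] at hb
      obtain ⟨q, hq, hb⟩ := hb
      exact List.mem_toFinset.2 (rect_sub (hRC q hq) b (List.mem_toFinset.1 hb))
    have hbn := nodup_blobs E hE
    have hcard : (blobs E).toFinset.card = 4 * a := by
      rw [List.toFinset_card_of_nodup hbn, len_blobs]
    have hun : ((blobs E).filter fun b => decide (∀ q ∈ R, b ∉ rect q)).length ≤
        ((blobs E).toFinset \ C).card := by
      rw [← List.toFinset_card_of_nodup (hbn.filter _)]
      refine Finset.card_le_card ?_
      intro b hb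
      rw [List.mem_toFinset, List.mem_filter] at hb
      obtain ⟨hb1, hb2⟩ := hb
      have hb3 := of_decide_eq_true hb2
      rw [Finset.mem_sdiff, List.mem_toFinset, hC, Finset.mem_biUnion]
      refine ⟨hb1, ?_⟩
      rintro ⟨q, hq, hbq⟩
      exact hb3 q hq (List.mem_toFinset.1 hbq)
    rw [Finset.card_sdiff_of_subset hCsub, hcard, hCcard] at hun
    refine le_trans (le_of_eq ?_) (hun.trans ?_)
    · congr!
    · omega
  · intro b hb b' hb'
    constructor
    · rintro ⟨T, hT, hfull, h1, h2⟩
      have hTF : T ∈ F := by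
        rw [hF, List.mem_filter]
        exact ⟨hT, by simpa using hfull⟩
      exact ⟨qf T, (hRmem _).2 ⟨T, hTF, rfl⟩, (hqf2 T hT hfull b hb 1 (by norm_num)).1 h1,
        (hqf2 T hT hfull b' hb' 1 (by norm_num)).1 h2⟩
    · rintro ⟨q, hq, h1, h2⟩
      obtain ⟨T, hTF, rfl⟩ := (hRmem q).1 hq
      obtain ⟨hT, hfull⟩ := hFy T hTF
      exact ⟨T, hT, hfull, (hqf2 T hT hfull b hb 1 (by norm_num)).2 h1,
        (hqf2 T hT hfull b' hb' 1 (by norm_num)).2 h2⟩

end Pool.Agent.W806.CPS
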