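import Pool.Agent.W996.EC.Stm
import Pool.Agent.Helper202.Riemann

/-! EC project, part STAR: limits of polynomials without zeros on an end. -/

set_option autoImplicit false

namespace Pool.Agent.W806.EC

open MvPolynomial Filter Topology Pool.Agent.W996.EC

theorem diff_eval {n : ℕ} (p : MvPolynomial (Fin n) ℂ) (y : ℂ → Fin n → ℂ) (V : Set ℂ)
    (hy : ∀ i, DifferentiableOn ℂ (fun w => y w i) V) :
    DifferentiableOn ℂ (fun w => eval (y w) p) V := by
  induction p using MvPolynomial.induction_on with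
  | C c => simp
  | add p q hp hq =>
    simp only [map_add]
    exact hp.fun_add hq
  | mul_X p i hp =>
    simp only [map_mul, eval_X]
    exact hp.fun_mul (hy i)

theorem local_zero (hU : S_unif) (n : ℕ) (P q : MvPolynomial (Fin n) ℂ) (a : Fin n → ℝ)
    (b : Fin n → ℂ) (h : ℂ → Fin n → ℂ) (c0 C0 : ℝ)
    (hh : ∀ i, DifferentiableOn ℂ (fun w => h w i) (LH c0))
    (hb : ∀ w ∈ LH c0, ‖h w‖ ≤ C0) (hz : ∀ w ∈ LH c0, ∀ M : Fin n → ℤ, eval (pt a b h w M) P ≠ 0)
    (hq : LimInf P q) (κ : Fin n → ℝ) (ω : ℂ) (hω : ω.re < 0)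
    (h0 : eval (fun i => (a i : ℂ) * ω + Complex.I * (κ i : ℂ)) q = 0) :
    ∀ᶠ z in 𝓝 ω, eval (fun i => (a i : ℂ) * z + Complex.I * (κ i : ℂ)) q = 0 := by
  obtain ⟨hq0, lam, k, c, hlam, hlt, hconv⟩ := hq
  -- nonzero coefficient
  obtain ⟨m, hm⟩ := MvPolynomial.ne_zero_iff.1 hq0
  have hc : ∀ᶠ j in atTop, c j ≠ 0 := by
    have h1 := (hconv.2 m).eventually_ne hm
    filter_upwards [h1] with j hj hcj
    apply hj
    simp [hcj]
  set ε : ℝ := -ω.re / 2 with hε
  have hεp : 0 < ε := by rw [hε]; linarith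
  have hl2 : ∀ᶠ j in atTop, -ε * lam j < c0 := by
    have h1 : Tendsto (fun j => -ε * lam j) atTop atBot :=
      hlt.const_mul_atTop_of_neg (by linarith)
    exact h1.eventually_lt_atBot c0
  obtain ⟨J, hJ⟩ := eventually_atTop.1 (hc.and hl2)
  set V : Set ℂ := {w | w.re < -ε} with hV
  have hVo : IsOpen V := isOpen_lt Complex.continuous_re continuous_const
  -- shifted data
  set lam' : ℕ → ℝ := fun j => lam (j + J) with hlam'
  set k' : ℕ → Fin n → ℝ := fun j => k (j + J) with hk'
  set c' : ℕ → ℂ := fun j => c (j + J) with hc'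
  have hlp : ∀ j, 0 < lam' j := fun j => hlam _
  have hlt' : Tendsto lam' atTop atTop := hlt.comp (tendsto_add_atTop_nat J)
  have hconv' : Conv (fun j => C (c' j) * tr (lam' j) (k' j) P) q := by
    obtain ⟨⟨d, hd⟩, h2⟩ := hconv
    exact ⟨⟨d, fun j => hd _⟩, fun m => (h2 m).comp (tendsto_add_atTop_nat J)⟩
  have hmem : ∀ j, ∀ w ∈ V, (lam' j : ℂ) * w ∈ LH c0 := by
    intro j w hw
    have h1 := (hJ (j + J) (Nat.le_add_left _ _)).2
    have h2 : w.re < -ε := hw
    show ((lam' j : ℂ) * w).re < c0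
    rw [Complex.re_ofReal_mul]
    calc lam' j * w.re < lam' j * (-ε) := by
          exact mul_lt_mul_of_pos_left h2 (hlp j)
      _ < c0 := by rw [mul_comm]; exact h1
  set M : ℕ → Fin n → ℤ := fun j i => round ((k' j i + lam' j * κ i) / (2 * Real.pi)) with hM
  set y : ℕ → ℂ → Fin n → ℂ := fun j w i => (a i : ℂ) * w +
    (b i + h ((lam' j : ℂ) * w) i + Complex.I * ((2 * Real.pi * (M j i : ℝ) - k' j i : ℝ) : ℂ)) /
      (lam' j : ℂ) with hy
  set y0 : ℂ → Fin n → ℂ := fun w i => (a i : ℂ) * w + Complex.I * (κ i : ℂ) with hy0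
  have hpt : ∀ j w, (fun i => (lam' j : ℂ) * y j w i + Complex.I * (k' j i : ℂ)) =
      pt a b h ((lam' j : ℂ) * w) (M j) := by
    intro j w
    funext i
    have hl0 : (lam' j : ℂ) ≠ 0 := by exact_mod_cast (hlp j).ne'
    simp only [hy, pt]
    push_cast
    field_simp
    ring
  have heval : ∀ j w, eval (y j w) (C (c' j) * tr (lam' j) (k' j) P) =
      c' j * eval (pt a b h ((lam' j : ℂ) * w) (M j)) P := by
    intro j w
    rw [map_mul, eval_C, eval_tr, hpt]
  have hround : ∀ j i, |2 * Real.pi * (M j i : ℝ) - (k' j i + lam' j * κ i)| ≤ Real.pi := by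
    intro j i
    have h1 := abs_sub_round ((k' j i + lam' j * κ i) / (2 * Real.pi))
    have h2 : 2 * Real.pi * (M j i : ℝ) - (k' j i + lam' j * κ i) =
        -(2 * Real.pi * ((k' j i + lam' j * κ i) / (2 * Real.pi) - (M j i : ℝ))) := by
      have := Real.pi_pos.ne'
      field_simp
      ring
    rw [h2, abs_neg, abs_mul, abs_of_pos (by positivity : (0 : ℝ) < 2 * Real.pi)]
    calc 2 * Real.pi * |(k' j i + lam' j * κ i) / (2 * Real.pi) - (M j i : ℝ)| ≤
        2 * Real.pi * (1 / 2) := by gcongr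
      _ = Real.pi := by ring
  have hdist : ∀ j, ∀ w ∈ V, dist (y0 w) (y j w) ≤ (‖b‖ + |C0| + Real.pi) / lam' j := by
    intro j w hw
    have hpos : (0 : ℝ) ≤ (‖b‖ + |C0| + Real.pi) / lam' j := by
      have := hlp j
      have := Real.pi_pos
      positivity
    rw [dist_pi_le_iff hpos]
    intro i
    have hl0 : (lam' j : ℂ) ≠ 0 := by exact_mod_cast (hlp j).ne'
    have h1 : y j w i - y0 w i = (b i + h ((lam' j : ℂ) * w) i +
        Complex.I * ((2 * Real.pi * (M j i : ℝ) - (k' j i + lam' j * κ i) : ℝ) : ℂ)) /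
          (lam' j : ℂ) := by
      simp only [hy, hy0]
      push_cast
      field_simp
      ring
    rw [dist_comm, dist_eq_norm, h1, norm_div, Complex.norm_real, Real.norm_of_nonneg (hlp j).le]
    gcongr
    · exact (hlp j).le
    refine (norm_add_le _ _).trans (add_le_add ((norm_add_le _ _).trans (add_le_add ?_ ?_)) ?_)
    · exact norm_le_pi_norm b i
    · exact (norm_le_pi_norm _ i).trans ((hb _ (hmem j w hw)).trans (le_abs_self _))
    · rw [norm_mul, Complex.norm_I, one_mul, Complex.norm_real]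
      exact hround j i
  have htu : TendstoLocallyUniformlyOn y y0 atTop V := by
    apply TendstoUniformlyOn.tendstoLocallyUniformlyOn
    rw [Metric.tendstoUniformlyOn_iff]
    intro e he
    have h1 : Tendsto (fun j => (‖b‖ + |C0| + Real.pi) / lam' j) atTop (𝓝 0) :=
      tendsto_const_nhds.div_atTop hlt'
    filter_upwards [h1.eventually_lt_const he] with j hj w hw
    exact (hdist j w hw).trans_lt hj
  have hy0c : ContinuousOn y0 V := by
    apply Continuous.continuousOn
    fun_prop
  have hlim := hU n _ q hconv' V y y0 hVo hy0c htu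
  have hωV : ω ∈ V := by
    show ω.re < -ε
    rw [hε]; linarith
  refine Pool.Agent.Helper202.Riemann.hurwitz hVo ?_ hlim ?_ hωV h0
  · intro j
    apply diff_eval
    intro i
    simp only [hy]
    have h1 : DifferentiableOn ℂ (fun w => h ((lam' j : ℂ) * w) i) V := by
      refine (hh i).comp (t := LH c0) (f := fun w => (lam' j : ℂ) * w) ?_ ?_
      · fun_prop
      · intro w hw
        exact hmem j w hw
    refine DifferentiableOn.fun_add (by fun_prop) ?_
    refine DifferentiableOn.div_const ?_ _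
    exact ((differentiableOn_const _).fun_add h1).fun_add (differentiableOn_const _)
  · intro j w hw
    show eval (y j w) (C (c' j) * tr (lam' j) (k' j) P) ≠ 0
    rw [heval]
    exact mul_ne_zero (hJ (j + J) (Nat.le_add_left _ _)).1 (hz _ (hmem j w hw) _)

theorem t_star (hU : S_unif) : S_star := by
  intro n P q a b h c0 C0 hh hb hz hq a' ha' κ
  rw [Set.mem_singleton_iff] at ha'
  subst ha'
  by_cases hex : ∃ ω : ℂ, ω.re < 0 ∧ eval (fun i => (a' i : ℂ) * ω + Complex.I * (κ i : ℂ)) q = 0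
  · right
    obtain ⟨ω, hω, h0⟩ := hex
    have h1 := local_zero hU n P q a' b h c0 C0 hh hb hz hq κ ω hω h0
    have hd : Differentiable ℂ (fun w : ℂ =>
        eval (fun i => (a' i : ℂ) * w + Complex.I * (κ i : ℂ)) q) := by
      rw [← differentiableOn_univ]
      apply diff_eval
      intro i
      fun_prop
    have ha : AnalyticOnNhd ℂ (fun w : ℂ =>
        eval (fun i => (a' i : ℂ) * w + Complex.I * (κ i : ℂ)) q) Set.univ :=
      (Complex.analyticOnNhd_univ_iff_differentiable).2 hd
    have h2 := AnalyticOnNhd.eq_of_eventuallyEq ha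
      (analyticOnNhd_const (v := (0 : ℂ))) (z₀ := ω) h1
    intro w
    exact congrFun h2 w
  · left
    push Not at hex
    exact hex

end Pool.Agent.W806.EC
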