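import Pool.Agent.W527.PC.Stm

set_option autoImplicit false

namespace Pool.Agent.W806.PCPIG

open Pool.Agent.W527.PC

/-- the product homomorphism -/
noncomputable def ff {A : Type} [CommGroup A] (u : Fin 5 → A) :
    Multiplicative (Fin 5 → ℤ) →* A where
  toFun s := ∏ j, u j ^ (Multiplicative.toAdd s j)
  map_one' := by simp
  map_mul' s t := by simp [zpow_add, Finset.prod_mul_distrib]

theorem t_TOR : S_TOR := by
  intro A _ _ p hp hcard u
  have hp0 : 0 < p := hp.out.pos
  by_contra hcon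
  have hcon' : ∀ s : Fin 5 → ℤ, ff u (Multiplicative.ofAdd s) = 1 → ∀ j, (p : ℤ) ∣ s j := by
    intro s hs j
    by_contra hj
    exact hcon ⟨s, ⟨j, hj⟩, hs⟩
  set Q := (ff u).range with hQ
  let pw : Q →* Q := powMonoidHom p
  have hker : Nat.card pw.ker ≤ Nat.card {a : A // a ^ p = 1} := by
    refine Nat.card_le_card_of_injective
      (fun x : pw.ker => (⟨((x : Q) : A), ?_⟩ : {a : A // a ^ p = 1})) ?_
    · have h1 : pw (x : Q) = 1 := x.2
      have h2 : ((x : Q) ^ p : Q) = 1 := h1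
      have h3 := congrArg (Subtype.val) h2
      simpa using h3
    · intro x y hxy
      have h1 : ((x : Q) : A) = ((y : Q) : A) :=
        congrArg (fun z : {a : A // a ^ p = 1} => (z : A)) hxy
      exact Subtype.ext (Subtype.ext h1)
  have e1 : Nat.card pw.range * pw.range.index = Nat.card Q := pw.range.card_mul_index
  have e2 : Nat.card pw.ker * pw.ker.index = Nat.card Q := pw.ker.card_mul_index
  have e3 : pw.ker.index = Nat.card pw.range := Subgroup.index_ker pw
  have hpos : 0 < Nat.card pw.range := Nat.card_pos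
  have hidx : pw.range.index = Nat.card pw.ker := by
    rw [e3, mul_comm] at e2
    exact Nat.eq_of_mul_eq_mul_left hpos (e1.trans e2.symm)
  have hge : p ^ 5 ≤ pw.range.index := by
    have hc : Nat.card (Fin 5 → Fin p) = p ^ 5 := by simp
    rw [← hc]
    refine Nat.card_le_card_of_injective (fun e : Fin 5 → Fin p =>
      (QuotientGroup.mk ((ff u).rangeRestrict (Multiplicative.ofAdd fun j => ((e j : ℕ) : ℤ))) :
        Q ⧸ pw.range)) ?_
    intro e e' he
    have h1 := QuotientGroup.eq.1 he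
    obtain ⟨y, hy⟩ := h1
    obtain ⟨t, ht⟩ := y.2
    have h2 : (y : A) ^ p = (ff u (Multiplicative.ofAdd fun j => ((e j : ℕ) : ℤ)))⁻¹ *
        ff u (Multiplicative.ofAdd fun j => ((e' j : ℕ) : ℤ)) := by
      have := congrArg Subtype.val hy
      simpa [pw] using this
    rw [← ht, ← map_pow, ← map_inv, ← map_mul] at h2
    have h3 : ff u (Multiplicative.ofAdd (fun j => ((e' j : ℕ) : ℤ) - ((e j : ℕ) : ℤ) -
        (p : ℤ) * Multiplicative.toAdd t j)) = 1 := by
      have h4 : (Multiplicative.ofAdd (fun j => ((e' j : ℕ) : ℤ) - ((e j : ℕ) : ℤ) -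
        (p : ℤ) * Multiplicative.toAdd t j) : Multiplicative (Fin 5 → ℤ)) =
          ((Multiplicative.ofAdd fun j => ((e j : ℕ) : ℤ))⁻¹ *
            (Multiplicative.ofAdd fun j => ((e' j : ℕ) : ℤ))) * (t ^ p)⁻¹ := by
        apply Multiplicative.toAdd.injective
        funext j
        simp only [toAdd_ofAdd, toAdd_mul, toAdd_inv, toAdd_pow, Pi.add_apply, Pi.neg_apply,
          Pi.smul_apply]
        rw [nsmul_eq_mul]
        ring
      rw [h4, map_mul, map_inv, ← h2, mul_inv_cancel]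
    have h5 := hcon' _ h3
    funext j
    have h6 : (p : ℤ) ∣ ((e' j : ℕ) : ℤ) - ((e j : ℕ) : ℤ) := by
      have h5j : (p : ℤ) ∣ ((e' j : ℕ) : ℤ) - ((e j : ℕ) : ℤ) -
        (p : ℤ) * Multiplicative.toAdd t j := h5 j
      have := dvd_add h5j (dvd_mul_right (p : ℤ) (Multiplicative.toAdd t j))
      rwa [sub_add_cancel] at this
    have h7 := (e j).2
    have h8 := (e' j).2
    obtain ⟨c, hc⟩ := h6
    have hc0 : c = 0 := by
      have hpz : (0 : ℤ) < p := by exact_mod_cast hp0
      have b1 : (p : ℤ) * c < p * 1 := by rw [← hc]; omega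
      have b2 : (p : ℤ) * (-1) < p * c := by rw [← hc]; omega
      have c1 := lt_of_mul_lt_mul_left b1 hpz.le
      have c2 := lt_of_mul_lt_mul_left b2 hpz.le
      omega
    rw [hc0, mul_zero] at hc
    apply Fin.ext
    omega
  omega

theorem t_PIG : S_PIG := by
  intro p hp hp2 u n
  have hp0 : 0 < p := hp.out.pos
  have : NeZero (p ^ n) := ⟨pow_ne_zero _ hp.out.ne_zero⟩
  have hcyc : IsCyclic (ZMod (p ^ n))ˣ := ZMod.isCyclic_units_of_prime_pow p hp.out hp2 n
  have h1 : Nat.card {x : (ZMod (p ^ n))ˣ // x ^ p = 1} ≤ p := by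
    classical
    rw [Nat.card_eq_fintype_card, Fintype.card_subtype]
    exact IsCyclic.card_pow_eq_one_le hp0
  have hcard : Nat.card {a : Fin 4 → (ZMod (p ^ n))ˣ // a ^ p = 1} < p ^ 5 := by
    have h2 : Nat.card {a : Fin 4 → (ZMod (p ^ n))ˣ // a ^ p = 1} ≤
        Nat.card (Fin 4 → {x : (ZMod (p ^ n))ˣ // x ^ p = 1}) := by
      refine Nat.card_le_card_of_injective (fun a k => ⟨a.1 k, by
        have := congrFun a.2 k
        simpa using this⟩) ?_
      intro a b hab
      apply Subtype.ext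
      funext k
      have := congrFun hab k
      exact congrArg Subtype.val this
    have h3 : Nat.card (Fin 4 → {x : (ZMod (p ^ n))ˣ // x ^ p = 1}) =
        Nat.card {x : (ZMod (p ^ n))ˣ // x ^ p = 1} ^ 4 := by
      rw [Nat.card_pi]; simp
    calc _ ≤ _ := h2
      _ = _ := h3
      _ ≤ p ^ 4 := Nat.pow_le_pow_left h1 4
      _ < p ^ 5 := Nat.pow_lt_pow_right hp.out.one_lt (by norm_num)
  obtain ⟨s, hs, hs1⟩ := t_TOR (Fin 4 → (ZMod (p ^ n))ˣ) p hcard
    (fun j k => Units.map ((PadicInt.toZModPow n : ℤ_[p] →+* ZMod (p ^ n)) : ℤ_[p] →* ZMod (p ^ n)) (u k j))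
  refine ⟨s, hs, fun k => ?_⟩
  have h4 : Units.map ((PadicInt.toZModPow n : ℤ_[p] →+* ZMod (p ^ n)) : ℤ_[p] →* ZMod (p ^ n))
      (∏ j, u k j ^ s j) = 1 := by
    have := congrFun hs1 k
    rw [Finset.prod_apply] at this
    simpa [map_prod, map_zpow] using this
  have h5 : (PadicInt.toZModPow n) (((∏ j, u k j ^ s j : ℤ_[p]ˣ) : ℤ_[p]) - 1) = 0 := by
    rw [map_sub, map_one]
    have := congrArg Units.val h4
    rw [Units.coe_map] at this
    simp only [MonoidHom.coe_coe, Units.val_one] at this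
    rw [this, sub_self]
  rw [PadicInt.norm_le_pow_iff_mem_span_pow, ← PadicInt.ker_toZModPow]
  exact h5

end Pool.Agent.W806.PCPIG
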