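import Pool.Agent.W921.VP.DefsC

/-!
Project VP: the free extension is a model (helper806).
-/

set_option autoImplicit false

namespace Pool.Agent.W806.VPGEN

open FirstOrder Set
open Pool.Agent.W921.VP

theorem exists_other {J : Type} (v : El J) : ∃ b, v ≠ b := by
  by_cases h : v = El.y 0
  · refine ⟨El.y 1, ?_⟩
    rw [h]
    intro h'
    injection h' with h2
    exact absurd h2 (by norm_num)
  · exact ⟨El.y 0, h⟩

theorem task (he : S_EMB) : S_GEN := by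
  intro L _ T M S K t hb pl hpl
  have hE := he L M S K t hb.tw pl hpl
  refine hb.wit (K ⊕ El (Out K)) (NStr S pl t) (fun k => Sum.inl k) ⟨Sum.inr (El.y 0)⟩ ?_
  have key : ∀ x y : K ⊕ El (Out K), ∃ a b : El (Out K), a ≠ b ∧
      ((∃ k, x = Sum.inl k) ∨ x = Sum.inr a ∨ x = Sum.inr b) ∧
      ((∃ k, y = Sum.inl k) ∨ y = Sum.inr a ∨ y = Sum.inr b) := by
    rintro (k | u) (k' | v)
    · obtain ⟨b, hb⟩ := exists_other (El.y 0 : El (Out K))
      exact ⟨_, b, hb, Or.inl ⟨k, rfl⟩, Or.inl ⟨k', rfl⟩⟩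
    · obtain ⟨b, hb⟩ := exists_other v
      exact ⟨v, b, hb, Or.inl ⟨k, rfl⟩, Or.inr (Or.inl rfl)⟩
    · obtain ⟨b, hb⟩ := exists_other u
      exact ⟨u, b, hb, Or.inr (Or.inl rfl), Or.inl ⟨k', rfl⟩⟩
    · by_cases h : u = v
      · subst h
        obtain ⟨b, hb⟩ := exists_other u
        exact ⟨u, b, hb, Or.inr (Or.inl rfl), Or.inr (Or.inl rfl)⟩
      · exact ⟨u, v, h, Or.inr (Or.inl rfl), Or.inr (Or.inr rfl)⟩
  intro x y
  obtain ⟨a, b, hab, hx, hy⟩ := key x y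
  obtain ⟨e, he1, he2, ha, hb'⟩ := hE a b hab
  have hr : ∀ z : K ⊕ El (Out K), ((∃ k, z = Sum.inl k) ∨ z = Sum.inr a ∨ z = Sum.inr b) →
      z ∈ range e := by
    rintro z (⟨k, rfl⟩ | rfl | rfl)
    · exact ⟨k, he2 k⟩
    · exact ha
    · exact hb'
  exact ⟨e, he1, he2, hr x hx, hr y hy⟩

end Pool.Agent.W806.VPGEN
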